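import Pool.Agent.H578.E8.WK
import Pool.Graph.R_pool_sql_team_seeded_3997aac3.Q121.E8.K2
import Pool.Graph.R_pool_sql_team_seeded_3997aac3.Q265.E8.LG
import Pool.Graph.R_pool_sql_team_seeded_3997aac3.Q153.E8.DF
import Pool.Graph.R_pool_sql_team_seeded_3997aac3.Q192.E8.II
import Pool.Graph.R_pool_sql_team_seeded_3997aac3.Q164.E8.LD
import Pool.Graph.R_pool_sql_team_seeded_3997aac3.Q267.E8.EK

set_option autoImplicit false

/-!
# Differentiating the identities with dual numbers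
-/

namespace Pool.Agent.H578.E8

open Finset TrivSqZeroExt Pool.Agent.Q267.CDE Pool.Agent.Q267.E8

section dual

variable {S : Type} [CommRing S]

/-- dual numbers -/
abbrev Du (S : Type) [CommRing S] : Type := TrivSqZeroExt S S

/-- `z + a ε` -/
def mk (z a : S) : Du S := (z, a)

theorem mk_fst (z a : S) : (mk z a).fst = z := rfl

theorem mk_snd (z a : S) : (mk z a).snd = a := rfl

theorem mk_mul (z a w b : S) : mk z a * mk w b = mk (z * w) (z * b + a * w) := by
  apply TrivSqZeroExt.ext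
  · rfl
  · show z • b + MulOpposite.op w • a = _
    rw [mk_snd, smul_eq_mul, op_smul_eq_mul]

theorem mk_add (z a w b : S) : mk z a + mk w b = mk (z + w) (a + b) := rfl

theorem mk_sub (z a w b : S) : mk z a - mk w b = mk (z - w) (a - b) := rfl

theorem mk_neg (z a : S) : -mk z a = mk (-z) (-a) := rfl

theorem one_eq : (1 : Du S) = mk 1 0 := rfl

theorem int_eq (n : ℤ) : ((n : ℤ) : Du S) = mk (n : S) 0 := rfl

theorem nat_eq (n : ℕ) : ((n : ℕ) : Du S) = mk (n : S) 0 := rfl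

theorem two_eq : (2 : Du S) = mk 2 0 := by
  have := nat_eq (S := S) 2
  push_cast at this
  exact this

theorem four_eq : (4 : Du S) = mk 4 0 := by
  have := nat_eq (S := S) 4
  push_cast at this
  exact this

theorem mk_pow (z a : S) (n : ℕ) : mk z a ^ n = mk (z ^ n) (n * z ^ (n - 1) * a) := by
  induction n with
  | zero =>
    rw [pow_zero, pow_zero, one_eq]
    simp
  | succ n ih =>
    rw [pow_succ, ih, mk_mul, ← pow_succ]
    congr 1
    cases n with
    | zero => simp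
    | succ n =>
      push_cast
      simp only [pow_succ]
      ring

theorem mk_sum {ι : Type*} (s : Finset ι) (f g : ι → S) : ∑ i ∈ s, mk (f i) (g i) = mk (∑ i ∈ s, f i) (∑ i ∈ s, g i) := by
  classical
  induction s using Finset.induction_on with
  | empty => rfl
  | insert i s hi ih => rw [sum_insert hi, sum_insert hi, sum_insert hi, ih, mk_add]

theorem Ff_mk (m : ℕ) (z a : S) : Ff m (mk z a) = mk (Ff m z) (dF m z * a) := by
  rw [Ff_eq, Ff_eq]
  unfold dF
  rw [sum_mul, ← mk_sum]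
  refine sum_congr rfl fun k _ => ?_
  rw [int_eq, mk_pow, mk_mul]
  congr 1
  ring

theorem Kf_mk (m : ℕ) (z a : S) : Kf m (mk z a) = mk (Kf m z) (dK m z * a) := by
  rw [Kf_eq, Kf_eq]
  unfold dK
  rw [sum_mul, ← mk_sum]
  refine sum_congr rfl fun k _ => ?_
  rw [int_eq, mk_pow, mk_mul]
  congr 1
  ring

theorem mk_inj {z a w b : S} (h : mk z a = mk w b) : z = w ∧ a = b :=
  ⟨congrArg fst h, congrArg snd h⟩

end dual

section rel

variable (p m : ℕ) [hp : Fact p.Prime] {S : Type} [CommRing S] [Algebra (R p) S]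

/-- the values of the second polynomial and of its derivative at `1 - λ` -/
theorem k_one_sub (hpm : p = 2 * m + 1) (r h : S) (hr : r ^ 2 = 2) (hh : 2 * h = 1) :
    2 * Kf m (1 - -2 * (1 + r)) = 2 ^ m * (Ff m (-2 * (1 + r)) + Kf m (-2 * (1 + r))) ∧
    2 * dK m (1 - -2 * (1 + r)) * r = 2 ^ m * ((dF m (-2 * (1 + r)) + dK m (-2 * (1 + r))) * r -
      m * (1 - r) * (Ff m (-2 * (1 + r)) + Kf m (-2 * (1 + r)))) := by
  set e := 1 + r with he
  set a := -(1 - r) * h with ha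
  have hld := Pool.Agent.Q164.E8.ld (Du S) m (mk (-e) a) (mk h (h * r * a)) (by
    rw [one_eq, mk_add, mk_pow, mk_mul]
    congr 1
    · rw [he]
      linear_combination h * hr + hh
    · rw [he, ha]
      push_cast
      rw [pow_one]
      linear_combination (-(1 - r) * h * h * r) * hr)
  have hek := ek p m (Du S) (mk (-2 * e) (-1)) (-(mk (-e) a * mk h (h * r * a))) hpm (by
    rw [four_eq, mk_mul, mk_neg, mk_neg, mk_mul]
    congr 1
    · linear_combination -2 * e * hh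
    · rw [he, ha]
      linear_combination (-4 * h ^ 2 * r) * hr - (2 * h + 1) * hh)
  have h1 : mk (-e) a ^ 2 = mk (1 - -2 * e) (-1) := by
    rw [mk_pow]
    congr 1
    · rw [he]; linear_combination hr
    · rw [he, ha]
      push_cast
      rw [pow_one]
      linear_combination -2 * h * hr - hh
  rw [h1, Kf_mk] at hld
  rw [Ff_mk, Kf_mk, mk_add] at hek
  have h2 : (1 + mk (-e) a) ^ (2 * m) = mk (2 ^ m) (2 * m * (-r) ^ (2 * m - 1) * a) := by
    rw [one_eq, mk_add, mk_pow]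
    congr 1
    · rw [he, pow_mul]
      congr 1
      linear_combination hr
    · have h9 : 1 + -e = -r := by rw [he]; ring
      rw [h9, zero_add]
      push_cast
      ring
  rw [h2] at hld
  have h3 := congrArg (fun y => 2 * y) hld
  change 2 * _ = 2 * _ at h3
  have h4 : 2 * (mk (2 ^ m) (2 * m * (-r) ^ (2 * m - 1) * a) * Ef m (-(mk (-e) a * mk h (h * r * a)))) =
      mk (2 ^ m) (2 * m * (-r) ^ (2 * m - 1) * a) * (2 * Ef m (-(mk (-e) a * mk h (h * r * a)))) := by ring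
  rw [h4, hek, two_eq, mk_mul, mk_mul] at h3
  obtain ⟨h5, h6⟩ := mk_inj h3
  refine ⟨h5, ?_⟩
  have h7 : m * r * (-r) ^ (2 * m - 1) = -(m * 2 ^ m : S) := by
    rcases Nat.eq_zero_or_pos m with h0 | h0
    · rw [h0]; simp
    · have : (-r) ^ (2 * m) = (2 : S) ^ m := by rw [pow_mul, neg_sq, hr]
      have h8 : (-r) ^ (2 * m) = (-r) ^ (2 * m - 1) * (-r) := by
        rw [← pow_succ]
        congr 1
        omega
      rw [h8] at this
      linear_combination -(m : S) * this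
  rw [ha] at h6
  linear_combination (-r) * h6 + ((1 - r) * 2 * h) * (Ff m (-2 * e) + Kf m (-2 * e)) * h7 -
    (2 ^ m * m * (1 - r) * (Ff m (-2 * e) + Kf m (-2 * e))) * hh

/-- the relation at `λ` and its derivative -/
theorem two_rel (hpm : p = 2 * m + 1) (h3 : 3 < p) (r h : S) (hr : r ^ 2 = 2) (hh : 2 * h = 1) :
    (1 + (-2 * (1 + r)) ^ p + (1 - -2 * (1 + r)) ^ p) * Ff m (-2 * (1 + r)) =
      2 * (1 - (-2 * (1 + r)) ^ p) * Kf m (-2 * (1 + r)) +
      (-2 * (1 + r)) ^ p * ((-2) ^ m * (Ff m (-2 * (1 + r)) + Kf m (-2 * (1 + r)))) ∧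
    (p : S) * ((-2 * (1 + r)) ^ (p - 1) - (1 - -2 * (1 + r)) ^ (p - 1)) * Ff m (-2 * (1 + r)) +
      (1 + (-2 * (1 + r)) ^ p + (1 - -2 * (1 + r)) ^ p) * dF m (-2 * (1 + r)) =
      -2 * p * (-2 * (1 + r)) ^ (p - 1) * Kf m (-2 * (1 + r)) +
      2 * (1 - (-2 * (1 + r)) ^ p) * dK m (-2 * (1 + r)) +
      p * (-2 * (1 + r)) ^ (p - 1) * ((-2) ^ m * (Ff m (-2 * (1 + r)) + Kf m (-2 * (1 + r)))) +
      (-2 * (1 + r)) ^ p * ((-2) ^ m * (m * (1 - r) * r * h * (Ff m (-2 * (1 + r)) + Kf m (-2 * (1 + r))) -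
        (dF m (-2 * (1 + r)) + dK m (-2 * (1 + r))))) := by
  obtain ⟨hk1, hk2⟩ := k_one_sub p m hpm r h hr hh
  set z := -2 * (1 + r) with hz
  have hii := Pool.Agent.Q192.E8.ii Pool.Agent.Q265.E8.lg Pool.Agent.Q265.E8.lm Pool.Agent.Q153.E8.df
    p m (Du S) (mk z 1) hpm h3
  have hk := Pool.Agent.Q121.E8.k2 (Du S) m (mk z 1)
  have h1 : 1 - mk z 1 = mk (1 - z) (-1) := by
    rw [one_eq, mk_sub, zero_sub]
  have hs : ((-1 : Du S) ^ m) * (-1) ^ m = 1 := by
    rw [← mul_pow]; norm_num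
  have hsS : ((-1 : S) ^ m) * (-1) ^ m = 1 := by
    rw [← mul_pow]; norm_num
  have hkr : Kr m (mk z 1) = (-1) ^ m * Kf m (1 - mk z 1) := by
    linear_combination (-Kr m (mk z 1)) * hs - (-1) ^ m * hk
  have hm1 : (-1 : Du S) ^ m = mk ((-1) ^ m) 0 := by
    have := int_eq (S := S) ((-1) ^ m)
    push_cast at this
    exact this
  have h22 : (-2 : S) ^ m = (-1) ^ m * 2 ^ m := by rw [← mul_pow]; norm_num
  rw [hkr, h1, Ff_mk, Kf_mk, Kf_mk, hm1, one_eq, two_eq, mk_pow, mk_pow] at hii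
  simp only [mk_mul, mk_add, mk_sub] at hii
  obtain ⟨e1, e2⟩ := mk_inj hii
  rw [h22]
  constructor
  · linear_combination e1 + z ^ p * (-1) ^ m * hk1
  · linear_combination e2 + p * z ^ (p - 1) * (-1) ^ m * hk1 - z ^ p * (-1) ^ m * r * h * hk2 -
      (h * (z ^ p * (-1) ^ m * (2 ^ m * (dF m z + dK m z) - 2 * dK m (1 - z)))) * hr -
      (z ^ p * (-1) ^ m * (2 ^ m * (dF m z + dK m z) - 2 * dK m (1 - z))) * hh

/-- the algebra -/
theorem alg (P r h M U K A B l l1 n n1 κ k0 d il iu : S) (hP : P ^ 2 = 0) (hr : r ^ 2 = 2) (hh : 2 * h = 1)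
    (hM : 2 * M + 1 = P) (hl : -2 * (1 + r) * l1 = l) (hn : (3 + 2 * r) * n1 = n) (hPn : P * n = P * (1 - l))
    (hκ : κ = 1 + P * k0) (hd : U = K + P * d) (hil : l * il = 1) (hiu : U * iu = 1)
    (h0 : (1 + l + n) * U = 2 * (1 - l) * K + l * (κ * (U + K)))
    (h1 : P * (l1 - n1) * U + (1 + l + n) * A = -2 * P * l1 * K + 2 * (1 - l) * B + P * l1 * (κ * (U + K)) +
      l * (κ * (M * (1 - r) * r * h * (U + K) - (A + B))))
    (hw : 2 * (-2 * (1 + r)) * (3 + 2 * r) * (U * B - K * A) + P * (-2 * (1 + r)) * U * K = P * l) :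
    4 * U * (-2 * (1 + r) * A) = -r * U ^ 2 + h * P * (2 - 3 * l) * (3 - 2 * r) := by
  have hPκ : P * κ = P := by rw [hκ]; linear_combination k0 * hP
  have hPK : P * K = P * U := by rw [hd]; linear_combination -d * hP
  have hee : (1 + r) * (r - 1) = 1 := by linear_combination hr
  have hff : (3 + 2 * r) * (3 - 2 * r) = 1 := by linear_combination -4 * hr
  -- `P D = 0`
  have hPD : P * (U * B - K * A) = 0 := by
    have e : 2 * (-2 * (1 + r)) * (3 + 2 * r) * (P * (U * B - K * A)) = 0 := by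
      linear_combination P * hw + (l - (-2 * (1 + r)) * U * K) * hP
    have e2 : (h * h * (1 - r) * (3 - 2 * r)) * (2 * (-2 * (1 + r)) * (3 + 2 * r)) = 1 := by
      linear_combination (4 * h * h * (3 + 2 * r) * (3 - 2 * r)) * hr + (4 * h * h) * hff + (2 * h + 1) * hh
    linear_combination (h * h * (1 - r) * (3 - 2 * r)) * e - (P * (U * B - K * A)) * e2
  obtain ⟨T, hT⟩ : ∃ T : S, T = M * (1 - r) * r * h * U - 2 * A := ⟨_, rfl⟩
  have e3 : l * κ * (U + K) * T = P * (l1 - n1) * U ^ 2 + 2 * P * l1 * K * U - P * l1 * κ * (U + K) * U -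
      2 * (1 - l) * (U * B - K * A) + l * κ * (U * B - K * A) := by
    rw [hT]
    linear_combination (-U) * h1 + A * h0
  have e4 : P * T = 0 := by
    have e5 : l * U * 2 * (P * T) = 0 := by
      have e6 : P * (l * κ * (U + K) * T) = P * (l * U * 2 * T) := by
        linear_combination (l * (U + K) * T) * hPκ + (l * T) * hPK
      have e7 : P * (l * κ * (U + K) * T) = 0 := by
        rw [e3]
        linear_combination ((l1 - n1) * U ^ 2 + 2 * l1 * K * U - l1 * κ * (U + K) * U) * hP +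
          (-2 * (1 - l) + l * κ) * hPD
      linear_combination e7 - e6
    linear_combination (il * iu * h) * e5 - (2 * h * (P * T) * U * iu) * hil - (2 * h * (P * T)) * hiu -
      (P * T) * hh
  obtain rfl : K = U - P * d := by linear_combination -hd
  subst hκ
  have e8 : 2 * l * U * T = P * (l1 - n1) * U ^ 2 - (2 - 3 * l) * (U * B - (U - P * d) * A) := by
    linear_combination e3 + l * (d - 2 * U * k0 + P * k0 * d) * e4 +
      (-l1 * d * U - 2 * l1 * k0 * U ^ 2 + P * l1 * k0 * d * U) * hP + l * k0 * hPD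
  have e9 : l * (4 * (-2 * (1 + r)) * (3 + 2 * r) * U * T -
      P * (2 * U ^ 2 - 2 + 3 * l - 3 * (-2 * (1 + r)) * U ^ 2)) = 0 := by
    linear_combination (2 * (-2 * (1 + r)) * (3 + 2 * r)) * e8 - (2 - 3 * l) * hw +
      (2 * P * U ^ 2 * (3 + 2 * r)) * hl - (2 * P * U ^ 2 * (-2 * (1 + r))) * hn -
      (2 * U ^ 2 * (-2 * (1 + r))) * hPn + (2 - 3 * l) * (-2 * (1 + r)) * U * hPK
  have e10 : 4 * (-2 * (1 + r)) * (3 + 2 * r) * U * T -
      P * (2 * U ^ 2 - 2 + 3 * l - 3 * (-2 * (1 + r)) * U ^ 2) = 0 := by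
    linear_combination il * e9 - (4 * (-2 * (1 + r)) * (3 + 2 * r) * U * T -
      P * (2 * U ^ 2 - 2 + 3 * l - 3 * (-2 * (1 + r)) * U ^ 2)) * hil
  have t1 : -2 * (1 + r) * T = M * r * U - 2 * (-2 * (1 + r) * A) := by
    rw [hT]
    linear_combination (2 * h * r * M * U) * hr + (M * r * U) * hh
  have t2 : 4 * (3 + 2 * r) * U * (M * r * U - 2 * (-2 * (1 + r) * A)) =
      P * (2 * U ^ 2 - 2 + 3 * l - 3 * (-2 * (1 + r)) * U ^ 2) := by
    linear_combination e10 - 4 * (3 + 2 * r) * U * t1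
  have t3 : 4 * U * (M * r * U - 2 * (-2 * (1 + r) * A)) =
      (3 - 2 * r) * P * (2 * U ^ 2 - 2 + 3 * l - 3 * (-2 * (1 + r)) * U ^ 2) := by
    linear_combination (3 - 2 * r) * t2 - (4 * U * (M * r * U - 2 * (-2 * (1 + r) * A))) * hff
  have t4 : (3 - 2 * r) * (2 * U ^ 2 - 2 + 3 * l - 3 * (-2 * (1 + r)) * U ^ 2) =
      2 * r * U ^ 2 - (2 - 3 * l) * (3 - 2 * r) := by
    linear_combination (-12 * U ^ 2) * hr
  linear_combination (-h) * t3 - h * P * t4 + (2 * h * r * U ^ 2) * hM -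
    (4 * U * (-2 * (1 + r) * A) + r * U ^ 2) * hh

/-- **The derivative at the CM point.** -/
theorem key (hpm : p = 2 * m + 1) (h3 : 3 < p) (r h : S) (hr : r ^ 2 = 2) (hh : 2 * h = 1)
    (hκ : ∃ k0 : S, (-2) ^ m = 1 + (p : S) * k0) (iu : S) (hiu : Ff m (-2 * (1 + r)) * iu = 1) :
    4 * Ff m (-2 * (1 + r)) * (-2 * (1 + r) * dF m (-2 * (1 + r))) = -r * Ff m (-2 * (1 + r)) ^ 2 +
      h * p * (2 - 3 * (-2 * (1 + r)) ^ p) * (3 - 2 * r) := by
  obtain ⟨k0, hk0⟩ := hκ
  obtain ⟨d, hd⟩ := F_K p m hpm (-2 * (1 + r))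
  obtain ⟨h0, h1⟩ := two_rel p m hpm h3 r h hr hh
  have hm : 0 < m := by omega
  have hw := wronskian p m hpm hm (-2 * (1 + r))
  have hP : (p : S) ^ 2 = 0 := by
    have := congrArg (algebraMap (R p) S) (p_sq p)
    rw [map_pow, map_natCast, map_zero] at this
    exact this
  have hM : 2 * (m : S) + 1 = (p : S) := by
    have := congrArg (Nat.cast : ℕ → S) hpm
    push_cast at this
    exact this.symm
  have hp1 : p - 1 + 1 = p := by omega
  have h1l : (1 : S) - -2 * (1 + r) = 3 + 2 * r := by ring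
  rw [h1l] at h0 h1 hw
  have hfr : ∀ x y : S, (p : S) * (x + y) ^ p = p * (x ^ p + y ^ p) := by
    intro x y
    obtain ⟨w, hw⟩ := exists_add_pow_prime_eq hp.out x y
    rw [hw]
    linear_combination (x * y * w) * hP
  have hodd : Odd p := ⟨m, hpm⟩
  refine alg (p : S) r h m _ _ _ (dK m (-2 * (1 + r))) _ ((-2 * (1 + r)) ^ (p - 1)) ((3 + 2 * r) ^ p)
    ((3 + 2 * r) ^ (p - 1)) _ k0 d (((1 - r) * h) ^ p) iu hP hr hh hM ?_ ?_ ?_ hk0 hd ?_ hiu h0 ?_ ?_
  · rw [← pow_succ', hp1]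
  · rw [← pow_succ', hp1]
  · have e : (3 + 2 * r : S) = 1 + -(-2 * (1 + r)) := by ring
    rw [e, hfr, one_pow, hodd.neg_pow]
    ring
  · rw [← mul_pow]
    have : -2 * (1 + r) * ((1 - r) * h) = 1 := by linear_combination (2 * h) * hr + hh
    rw [this, one_pow]
  · linear_combination h1
  · linear_combination hw

end rel

end Pool.Agent.H578.E8
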