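import Pool.Agent.H578.E8.Du
import Pool.Graph.R_pool_sql_team_seeded_3997aac3.Q267.E8.Main2
import Pool.Graph.R_pool_sql_team_seeded_3997aac3.Q267.E8.K1
import Pool.Graph.R_pool_sql_team_seeded_3997aac3.Q64.E8.C2
import Pool.Graph.R_pool_sql_team_seeded_3997aac3.Q121.E8.RP

set_option autoImplicit false

/-!
# The weighted Pell sum modulo `p²`
-/

namespace Pool.Agent.H578.E8

open Finset Pool.Agent.Q267.CDE Pool.Agent.Q267.MW Pool.Agent.Q267.E8

theorem c2' : S_C2 := Pool.Agent.Q64.E8.c2 Pool.Agent.Q164.E8.rt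

/-- `(-2)^m = 1` modulo `p` -/
theorem kappa (p m : ℕ) [Fact p.Prime] (hpm : p = 2 * m + 1) (h8 : p % 8 = 1 ∨ p % 8 = 3) :
    ∃ k0 : R p, (-2) ^ m = 1 + (p : R p) * k0 := by
  apply red_eq_of
  have hp2 : p ≠ 2 := by omega
  have h20 : (2 : ZMod p) ≠ 0 := by
    have := cast_ne p 2 (by norm_num) (lt_of_le_of_ne (Fact.out : p.Prime).two_le (Ne.symm hp2))
    exact_mod_cast this
  have h1 : IsSquare (-2 : ZMod p) := (ZMod.exists_sq_eq_neg_two_iff hp2).mpr h8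
  rw [ZMod.euler_criterion p (neg_ne_zero.mpr h20)] at h1
  rw [map_pow, map_neg, map_ofNat, map_one]
  have : p / 2 = m := by omega
  rw [this] at h1
  exact h1

theorem p_frob (p m : ℕ) [hp : Fact p.Prime] (hpm : p = 2 * m + 1) {S : Type} [CommRing S] [Algebra (R p) S]
    (k0 : S) (hk : (-2) ^ m = 1 + (p : S) * k0) (r : S) (hr : r ^ 2 = 2) :
    (p : S) * (-2 * (1 + r)) ^ p = p * (-2 * (1 + 2 ^ m * r)) := by
  have hP : (p : S) ^ 2 = 0 := by
    have := congrArg (algebraMap (R p) S) (p_sq p)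
    rw [map_pow, map_natCast, map_zero] at this
    exact this
  obtain ⟨w, hw⟩ := exists_add_pow_prime_eq hp.out (1 : S) r
  have h1 : r ^ p = 2 ^ m * r := by
    rw [← hr, ← pow_mul, ← pow_succ, ← hpm]
  have h2 : (-2 : S) ^ p = ((-2) ^ m) ^ 2 * (-2) := by
    rw [← pow_mul, ← pow_succ]
    congr 1
    omega
  rw [mul_pow, hw, h2, hk, h1, one_pow]
  linear_combination ((-2) * (1 + 2 ^ m * r + 1 * r * w * p) * (2 * k0 + p * k0 ^ 2) - 2 * r * w) * hP

/-- Case 1: the sum of the two values -/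
theorem u_case1 (p q : ℕ) [Fact p.Prime] (hq : 0 < q) (hpq : p = 8 * q + 1) :
    ∃ r h : R p, r ^ 2 = 2 ∧ 2 * h = 1 ∧
      Ff (4 * q) (-2 * (1 + r)) + Ff (4 * q) (-2 * (1 - r)) = 2 * ((-1) ^ q * U p q (4 * q)) := by
  have hp2 : p ≠ 2 := by omega
  have hpm : p = 2 * (4 * q) + 1 := by omega
  obtain ⟨r, hr⟩ := exists_sqrt p (by omega)
  obtain ⟨h, hh⟩ := exists_half p hp2
  obtain ⟨h', x, hh', hx⟩ := exists_x4 p hp2
  obtain ⟨Q, hQ⟩ := exists_Q p hp2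
  have hpR : (p : R p) = 8 * q + 1 := by
    have := congrArg (Nat.cast : ℕ → R p) hpq
    push_cast at this
    exact this
  have hxe : p * x + 2 * q = x := by
    apply four_cancel p hp2
    linear_combination ((p : R p) - 1) * hx - hpR
  have hT2 := T2_val c2' p q (4 * q) hq hpm le_rfl (by omega) x hx Q hQ
  rw [hxe] at hT2
  have hPS : ∑ j ∈ range (2 * q + 1), (((2 * (2 * q)).choose (2 * j) : ℕ) : R p) * ((j.centralBinom : ℕ) : R p) *
      (h ^ 2) ^ j * 2 ^ (2 * q - j) = T2 p x := by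
    rw [Pool.Agent.Q181.E8.pe p (2 * q) h hh (by omega)]
    apply Pool.Agent.Q153.E8.pg p (2 * q) x (-((2 * q : ℕ) : R p) - h) (-x) (by omega)
    · push_cast
      linear_combination hxe
    · apply four_cancel p hp2
      push_cast
      linear_combination -(1 + (p : R p)) * hx - 2 * hh + hpR
  have hE : Ef (4 * q) ((1 + r) * h) = (1 + r) ^ (4 * q) * T2 p x := by
    have := Pool.Agent.Q176.E8.pv1 ev p (2 * q) (R p) r h hr hh
    rw [hPS] at this
    have e4 : 2 * (2 * q) = 4 * q := by ring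
    rw [e4] at this
    exact this
  have hK := K1_plus k1 (R p) (4 * q) r hr
  rw [show 2 * (4 * q) = 8 * q by ring] at hK
  have hEKp := ek p (4 * q) (R p) (-2 * (1 + r)) ((1 + r) * h) hpm (by linear_combination -2 * (1 + r) * hh)
  have h1 : Ff (4 * q) (-2 * (1 + r)) + (1 + r) ^ (8 * q) * Ff (4 * q) (-2 * (1 - r)) =
      2 * ((1 + r) ^ (4 * q) * T2 p x) := by
    rw [← hK, ← hEKp, hE]
  have h2 := Pool.Agent.Q154.E8.RB.rb1 p q r (T2 p x) hpq hr hK (by rw [← hE, hEKp])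
  have hsn := Pool.Agent.Q192.E8.sn1 p q (ZMod p) (red p r) hpq (by rw [← map_pow, hr, map_ofNat])
  have hfin := Pool.Agent.Q205.E8.lf1 p q r (Ff (4 * q) (-2 * (1 + r))) (Ff (4 * q) (-2 * (1 - r)))
    (U p q (4 * q)) (T2 p x) h Q hpq hr hh hQ h1 h2 hT2
    (by simp only [map_mul, map_pow, map_add, map_one, map_ofNat]; exact hsn)
  exact ⟨r, h, hr, hh, hfin⟩

/-- the algebra of case 1 -/
theorem alg1 {S : Type} [CommRing S] (P r h U V K d y Q k0 l n κ : S) (hP : P ^ 2 = 0) (hr : r ^ 2 = 2)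
    (hh : 2 * h = 1) (hl : l = -2 * (1 + r) * (1 + P * Q) * (1 + P * y)) (hn : n = (1 + r) ^ 2 * (1 + P * y) ^ 2)
    (hκ : κ = 1 + P * k0) (hQ : P * Q - 2 * P * k0 = 0) (hK : K = (1 + P * y) * V) (hd : U = K + P * d)
    (h0 : (1 + l + n) * U = 2 * (1 - l) * K + l * (κ * (U + K))) : U = V := by
  subst hd hK hκ hl hn
  have e : (4 + 2 * r) * (P * (d + V * y)) = 0 := by
    linear_combination h0 + (-V*y^2 - 2*d*k0 - 2*d*y - P*V*y^3 - P*d*y^2 - 4*Q*V*k0 + 4*Q*V*y - 8*V*k0*y -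
      4*V*r*y^2 - 3*V*r^2*y^2 - 2*d*k0*r - 4*d*r*y - 2*d*r^2*y + 2*P*Q*V*y^2 - 2*P*Q*d*k0 - 4*P*V*k0*y^2 -
      2*P*V*r*y^3 - P*V*r^2*y^3 - 2*P*d*k0*y - 2*P*d*r*y^2 - P*d*r^2*y^2 - 4*Q*V*k0*r + 4*Q*V*r*y -
      8*V*k0*r*y - 8*P*Q*V*k0*y + 2*P*Q*V*r*y^2 - 2*P*Q*d*k0*r - 4*P*V*k0*r*y^2 - 2*P*d*k0*r*y -
      4*P^2*Q*V*k0*y^2 - 2*P^2*Q*d*k0*y - 8*P*Q*V*k0*r*y - 4*P^2*Q*V*k0*r*y^2 - 2*P^2*Q*d*k0*r*y) * hP +
      (2 * V + 2 * V * r) * hQ + (-V - P * d - 3 * P * V * y) * hr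
  have e2 : (4 - 2 * r) * h ^ 3 * (4 + 2 * r) = 1 := by
    linear_combination (-4 * h ^ 3) * hr + (4 * h ^ 2 + 2 * h + 1) * hh
  linear_combination ((4 - 2 * r) * h ^ 3) * e - (P * (d + V * y)) * e2

/-- `P (2 - 3 l) h (3 - 2 r)` -/
theorem key' (p m : ℕ) [hp : Fact p.Prime] (hpm : p = 2 * m + 1) (h3 : 3 < p) (h8 : p % 8 = 1 ∨ p % 8 = 3)
    {S : Type} [CommRing S] [Algebra (R p) S] (r h : S) (hr : r ^ 2 = 2) (hh : 2 * h = 1) (iu : S)
    (hiu : Ff m (-2 * (1 + r)) * iu = 1) :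
    4 * Ff m (-2 * (1 + r)) * (-2 * (1 + r) * dF m (-2 * (1 + r))) = -r * Ff m (-2 * (1 + r)) ^ 2 +
      h * p * (2 + 6 * (1 + 2 ^ m * r)) * (3 - 2 * r) := by
  obtain ⟨k0, hk0⟩ := kappa p m hpm h8
  have hk : (-2 : S) ^ m = 1 + (p : S) * algebraMap (R p) S k0 := by
    have := congrArg (algebraMap (R p) S) hk0
    rwa [map_pow, map_neg, map_ofNat, map_add, map_one, map_mul, map_natCast] at this
  have h1 := key p m hpm h3 r h hr hh ⟨_, hk⟩ iu hiu
  have h2 := p_frob p m hpm _ hk r hr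
  linear_combination h1 - (3 * h * (3 - 2 * r)) * h2

/-- `2^m` modulo `p` -/
theorem p_two (p m : ℕ) [hp : Fact p.Prime] (hpm : p = 2 * m + 1) (h8 : p % 8 = 1 ∨ p % 8 = 3)
    (S : Type) [CommRing S] [Algebra (R p) S] : (p : S) * 2 ^ m = p * (-1) ^ m := by
  obtain ⟨k0, hk0⟩ := kappa p m hpm h8
  have hk : (-2 : S) ^ m = 1 + (p : S) * algebraMap (R p) S k0 := by
    have := congrArg (algebraMap (R p) S) hk0
    rwa [map_pow, map_neg, map_ofNat, map_add, map_one, map_mul, map_natCast] at this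
  have hP : (p : S) ^ 2 = 0 := by
    have := congrArg (algebraMap (R p) S) (p_sq p)
    rw [map_pow, map_natCast, map_zero] at this
    exact this
  have h1 : (-2 : S) ^ m = (-1) ^ m * 2 ^ m := by rw [← mul_pow]; norm_num
  have h2 : ((-1 : S) ^ m) * (-1) ^ m = 1 := by rw [← mul_pow]; norm_num
  rw [h1] at hk
  linear_combination ((p : S) * (-1) ^ m) * hk - (p * 2 ^ m) * h2 + ((-1) ^ m * algebraMap (R p) S k0) * hP

/-- Case 1: the weighted sum vanishes. -/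
theorem d_case1 (p q : ℕ) [Fact p.Prime] (hq : 0 < q) (hpq : p = 8 * q + 1) :
    ∃ r : R p, r ^ 2 = 2 ∧ -2 * (1 + r) * dF (4 * q) (-2 * (1 + r)) +
      -2 * (1 - r) * dF (4 * q) (-2 * (1 - r)) = 0 := by
  obtain ⟨r, h, hr, hh, hsum⟩ := u_case1 p q hq hpq
  refine ⟨r, hr, ?_⟩
  have hpm : p = 2 * (4 * q) + 1 := by omega
  have hp2 : p ≠ 2 := by omega
  have hP := p_sq p
  obtain ⟨k0, hk0⟩ := kappa p (4 * q) hpm (by omega)
  obtain ⟨Q, hQ⟩ := exists_Q p hp2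
  obtain ⟨d, hd⟩ := F_K p (4 * q) hpm (-2 * (1 + r))
  obtain ⟨h0, -⟩ := two_rel p (4 * q) hpm (by omega) r h hr hh
  have hK := K1_plus k1 (R p) (4 * q) r hr
  have hne : red p (1 + r) ≠ 0 := by
    intro h0
    have h1 := congrArg (red p) (show (1 + r) * (r - 1) = 1 by linear_combination hr)
    rw [map_mul, h0, zero_mul, map_one] at h1
    exact zero_ne_one h1
  have hE : red p ((1 + r) ^ (8 * q)) = red p 1 := by
    rw [map_pow, map_one]
    have h1 := ZMod.pow_card_sub_one_eq_one hne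
    rwa [show p - 1 = 8 * q by omega] at h1
  obtain ⟨y, hy⟩ := red_eq_of p _ _ hE
  have hpow : ∀ x : R p, x ^ p = x ^ (8 * q) * x := fun x => by
    rw [← pow_succ]
    exact congrArg (fun n => x ^ n) hpq
  have hpp : (1 + r) ^ p = (1 + r) * (1 + p * y) := by
    rw [hpow, hy]
    ring
  have h2p : (-2 : R p) ^ p = -2 * (1 + p * lift p Q) := by
    rw [hpow, Even.neg_pow ⟨4 * q, by ring⟩, ← hQ, show p - 1 = 8 * q by omega]
    ring
  have hUV : Ff (4 * q) (-2 * (1 + r)) = Ff (4 * q) (-2 * (1 - r)) := by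
    refine alg1 (p : R p) r h _ _ _ d y (lift p Q) k0 ((-2 * (1 + r)) ^ p) ((1 - -2 * (1 + r)) ^ p) _ hP hr hh
      ?_ ?_ hk0 ?_ ?_ hd h0
    · rw [mul_pow, hpp, h2p]
      ring
    · have e : (1 - -2 * (1 + r)) = (1 + r) ^ 2 := by linear_combination -hr
      rw [e, ← pow_mul, mul_comm 2 p, pow_mul, hpp]
      ring
    · have e : ((-2 : R p) ^ (4 * q)) ^ 2 = 1 + p * lift p Q := by
        rw [← hQ, ← pow_mul, show p - 1 = 4 * q * 2 by omega, Even.neg_pow ⟨4 * q, by ring⟩]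
      rw [hk0] at e
      linear_combination -e + k0 ^ 2 * hP
    · rw [hK, show 2 * (4 * q) = 8 * q by ring, hy]
  have huu : IsUnit ((-1) ^ q * U p q (4 * q)) := by
    refine IsUnit.mul ?_ ?_
    · exact (isUnit_one.neg).pow q
    · apply isUnit_of_red
      rw [red_U]
      have := (unit_choose p (4 * q) q (by omega) (by omega)).map (red p)
      exact this.ne_zero
  have hUe : Ff (4 * q) (-2 * (1 + r)) = (-1) ^ q * U p q (4 * q) := by
    rw [← hUV] at hsum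
    linear_combination h * hsum - (Ff (4 * q) (-2 * (1 + r)) - (-1) ^ q * U p q (4 * q)) * hh
  obtain ⟨iu, hiu⟩ := (hUe ▸ huu : IsUnit (Ff (4 * q) (-2 * (1 + r)))).exists_right_inv
  have k1 := key' p (4 * q) hpm (by omega) (by omega) r h hr hh iu hiu
  have k2 := key' p (4 * q) hpm (by omega) (by omega) (-r) h (by rw [neg_sq, hr]) hh iu (by
    rw [← sub_eq_add_neg, ← hUV]
    exact hiu)
  rw [← sub_eq_add_neg, ← hUV] at k2
  have h2m := p_two p (4 * q) hpm (by omega) (R p)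
  rw [Even.neg_one_pow ⟨2 * q, by ring⟩] at h2m
  set V := Ff (4 * q) (-2 * (1 + r))
  set A := dF (4 * q) (-2 * (1 + r))
  set B := dF (4 * q) (-2 * (1 - r))
  have e1 : 4 * V * (-2 * (1 + r) * A + -2 * (1 - r) * B) = 0 := by
    linear_combination k1 + k2 + (6 * h * r * (3 - 2 * r) - 6 * h * r * (3 + 2 * r)) * h2m -
      (24 * h * p) * hr
  linear_combination (iu * h ^ 2) * e1 - (4 * h ^ 2 * (-2 * (1 + r) * A + -2 * (1 - r) * B)) * hiu -
    ((2 * h + 1) * (-2 * (1 + r) * A + -2 * (1 - r) * B)) * hh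

end Pool.Agent.H578.E8
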