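import Pool.Agent.H578.E8.Fin

set_option autoImplicit false

/-!
# The weighted Pell sum modulo `p²`, primes `3` modulo `8`
-/

namespace Pool.Agent.H578.E8

open Finset Pool.Agent.Q267.CDE Pool.Agent.Q267.MW Pool.Agent.Q267.E8

/-- the algebra of case 3 -/
theorem alg3 {S : Type} [CommRing S] (P r h U V X Y w iw : S) (hr : r ^ 2 = 2)
    (hh : 2 * h = 1) (hV : V = -(1 + r) ^ 2 * U) (hw : -(1 + r) * U = w) (hiw : w * iw = 1)
    (hX : 4 * U * X = -r * U ^ 2 + P * (24 - 17 * r)) (hY : 4 * V * Y = r * V ^ 2 + P * (24 + 17 * r)) :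
    X + Y = w + 5 * P * iw := by
  subst hV hw
  have hX' : 4 * (-(1 + r) * U) * X = (2 - r) * (-(1 + r) * U) ^ 2 + P * (10 - 7 * r) := by
    linear_combination (-(1 + r)) * hX + (17*P + U^2 + U^2*r) * hr
  have hY' : 4 * (-(1 + r) * U) * Y = (2 + r) * (-(1 + r) * U) ^ 2 + P * (10 + 7 * r) := by
    linear_combination (r - 1) * hY + (17*P + U^2 + 4*U*Y + 3*U^2*r + 4*U^2*r^2 + 3*U^2*r^3 + U^2*r^4 +
      4*U*Y*r) * hr
  have e : 4 * (-(1 + r) * U) * (X + Y) = 4 * (-(1 + r) * U) ^ 2 + 20 * P := by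
    linear_combination hX' + hY'
  linear_combination (iw * h ^ 2) * e - (4 * h ^ 2 * (X + Y - (-(1 + r) * U))) * hiw -
    ((2 * h + 1) * (X + Y - (-(1 + r) * U) - 5 * P * iw)) * hh

/-- Case 3: the two values -/
theorem u_case3 (p q : ℕ) [Fact p.Prime] (hq : 0 < q) (hpq : p = 8 * q + 3) :
    ∃ (S : Type) (_ : CommRing S) (_ : Algebra (R p) S) (r : S) (h : R p), r ^ 2 = 2 ∧ 2 * h = 1 ∧
      Function.Injective (algebraMap (R p) S) ∧
      Ff (4 * q + 1) (-2 * (1 - r)) = -(1 + r) ^ 2 * Ff (4 * q + 1) (-2 * (1 + r)) ∧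
      Ff (4 * q + 1) (-2 * (1 + r)) + Ff (4 * q + 1) (-2 * (1 - r)) =
        algebraMap (R p) S (2 * ((-1) ^ (q + 1) * U p q (4 * q + 1))) := by
  have hp2 : p ≠ 2 := by omega
  have hpm : p = 2 * (4 * q + 1) + 1 := by omega
  obtain ⟨S, _, _, K, _, _, ρ, r, hr, hinj, hker⟩ := Pool.Agent.Q205.E8.ax p q hpq
  obtain ⟨h, hh⟩ := exists_half p hp2
  obtain ⟨h', x, hh', hx⟩ := exists_x4 p hp2
  obtain ⟨Q, hQ⟩ := exists_Q p hp2
  have hpR : (p : R p) = 8 * q + 3 := by
    have := congrArg (Nat.cast : ℕ → R p) hpq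
    push_cast at this
    exact this
  have hxe : p * x + 2 * q = 3 * x := by
    apply four_cancel p hp2
    linear_combination ((p : R p) - 3) * hx - hpR
  have hT2 := T2_val c2' p q (4 * q + 1) hq hpm (by omega) le_rfl x hx Q hQ
  rw [hxe] at hT2
  have hPS : ∑ j ∈ range (2 * q + 1), (((2 * (2 * q) + 1).choose (2 * j) : ℕ) : R p) *
      ((j.centralBinom : ℕ) : R p) * (h ^ 2) ^ j * 2 ^ (2 * q - j) = T2 p (3 * x) := by
    rw [Pool.Agent.Q299.E8.po p (2 * q) h hh (by omega)]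
    apply Pool.Agent.Q153.E8.pg p (2 * q) (3 * x) (-((2 * q : ℕ) : R p) - 3 * h) (-x) (by omega)
    · push_cast
      linear_combination hxe
    · apply four_cancel p hp2
      push_cast
      linear_combination -(3 + (p : R p)) * hx - 6 * hh + hpR
  have hhS : 2 * algebraMap (R p) S h = 1 := by
    have := congrArg (algebraMap (R p) S) hh
    rw [map_mul, map_one, map_ofNat] at this
    exact this
  have hE : Ef (4 * q + 1) ((1 + r) * algebraMap (R p) S h) = (1 + r) ^ (4 * q + 1) *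
      (r * algebraMap (R p) S (T2 p (3 * x))) := by
    have := Pool.Agent.Q176.E8.pv3 ev p (2 * q) S r h hr hh
    rw [hPS] at this
    have e4 : 2 * (2 * q) = 4 * q := by ring
    rw [e4] at this
    exact this
  have hKp := K1_plus k1 S (4 * q + 1) r hr
  have hKm := K1_minus k1 S (4 * q + 1) r hr
  have hEKp := ek p (4 * q + 1) S (-2 * (1 + r)) ((1 + r) * algebraMap (R p) S h) hpm
    (by linear_combination -2 * (1 + r) * hhS)
  have hEKm := ek p (4 * q + 1) S (-2 * (1 - r)) ((1 - r) * algebraMap (R p) S h) hpm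
    (by linear_combination -2 * (1 - r) * hhS)
  have h1 : Ff (4 * q + 1) (-2 * (1 + r)) + (1 + r) ^ (2 * (4 * q + 1)) * Ff (4 * q + 1) (-2 * (1 - r)) =
      2 * ((1 + r) ^ (4 * q + 1) * (r * algebraMap (R p) S (T2 p (3 * x)))) := by
    rw [← hKp, ← hEKp, hE]
  -- the Landen transformation
  have hLD := Pool.Agent.Q164.E8.ld S (4 * q + 1) (r - 1) (algebraMap (R p) S h)
    (by linear_combination algebraMap (R p) S h * hr + hhS)
  have hK2 := Pool.Agent.Q121.E8.k2 S (4 * q + 1) (-2 * (1 - r))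
  have e5 : (1 : S) - -2 * (1 - r) = (r - 1) ^ 2 := by linear_combination -hr
  have hodd : ((-1 : S)) ^ (4 * q + 1) = -1 := by
    rw [pow_succ, pow_mul]
    norm_num
  rw [e5, hodd] at hK2
  have e6 : (1 + (r - 1)) ^ (2 * (4 * q + 1)) = (2 : S) ^ (4 * q + 1) := by
    rw [pow_mul, show (1 + (r - 1)) ^ 2 = (2 : S) by linear_combination hr]
  rw [hK2, e6, show -((r - 1) * algebraMap (R p) S h) = (1 - r) * algebraMap (R p) S h by ring] at hLD
  have h2 : (2 : S) ^ (4 * q + 1) * (Ff (4 * q + 1) (-2 * (1 - r)) + Kf (4 * q + 1) (-2 * (1 - r))) =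
      -2 * Kr (4 * q + 1) (-2 * (1 - r)) := by
    rw [← hEKm]
    linear_combination -2 * hLD
  have hII := Pool.Agent.Q192.E8.ii Pool.Agent.Q265.E8.lg Pool.Agent.Q265.E8.lm Pool.Agent.Q153.E8.df
    p (4 * q + 1) S (-2 * (1 - r)) hpm (by omega)
  have hb := Pool.Agent.Q149.E8.ej p q S r (Ff (4 * q + 1) (-2 * (1 + r))) (Ff (4 * q + 1) (-2 * (1 - r)))
    (Kf (4 * q + 1) (-2 * (1 - r))) (Kr (4 * q + 1) (-2 * (1 - r))) Q hpq hr hQ hKm h2 hII
  have hsn := Pool.Agent.Q299.E8.sn3 p q K (ρ r) hpq (by rw [← map_pow, hr, map_ofNat])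
  have hfin := Pool.Agent.Q149.E8.lf3 p q S K ρ r (Ff (4 * q + 1) (-2 * (1 + r)))
    (Ff (4 * q + 1) (-2 * (1 - r))) (U p q (4 * q + 1)) (T2 p (3 * x)) Q hker hpq hr hQ h1 hb hT2
    (by simp only [map_mul, map_pow, map_add, map_one, map_ofNat]; exact hsn)
  exact ⟨S, inferInstance, inferInstance, r, h, hr, hh, hinj, hb, hfin⟩

/-- Case 3: the weighted sum. -/
theorem d_case3 (p q : ℕ) [Fact p.Prime] (hq : 0 < q) (hpq : p = 8 * q + 3) :
    ∃ (S : Type) (_ : CommRing S) (_ : Algebra (R p) S) (r : S) (iw : R p), r ^ 2 = 2 ∧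
      Function.Injective (algebraMap (R p) S) ∧ ((-1) ^ (q + 1) * U p q (4 * q + 1)) * iw = 1 ∧
      -2 * (1 + r) * dF (4 * q + 1) (-2 * (1 + r)) + -2 * (1 - r) * dF (4 * q + 1) (-2 * (1 - r)) =
        algebraMap (R p) S ((-1) ^ (q + 1) * U p q (4 * q + 1) + 5 * p * iw) := by
  obtain ⟨S, i1, i2, r, h, hr, hh, hinj, hb, hsum⟩ := u_case3 p q hq hpq
  have hpm : p = 2 * (4 * q + 1) + 1 := by omega
  have huu : IsUnit ((-1) ^ (q + 1) * U p q (4 * q + 1)) := by
    refine IsUnit.mul ?_ ?_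
    · exact (isUnit_one.neg).pow (q + 1)
    · apply isUnit_of_red
      rw [red_U]
      have := (unit_choose p (4 * q + 1) q (by omega) (by omega)).map (red p)
      exact this.ne_zero
  obtain ⟨iw, hiw⟩ := huu.exists_right_inv
  refine ⟨S, i1, i2, r, iw, hr, hinj, hiw, ?_⟩
  have hhS : 2 * algebraMap (R p) S h = 1 := by
    have := congrArg (algebraMap (R p) S) hh
    rw [map_mul, map_one, map_ofNat] at this
    exact this
  have hiwS : algebraMap (R p) S ((-1) ^ (q + 1) * U p q (4 * q + 1)) * algebraMap (R p) S iw = 1 := by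
    rw [← map_mul, hiw, map_one]
  rw [hb, map_mul, map_ofNat] at hsum
  set w := algebraMap (R p) S ((-1) ^ (q + 1) * U p q (4 * q + 1)) with hwdef
  have hw : -(1 + r) * Ff (4 * q + 1) (-2 * (1 + r)) = w := by
    linear_combination (algebraMap (R p) S h) * hsum +
      (algebraMap (R p) S h * Ff (4 * q + 1) (-2 * (1 + r))) * hr +
      ((1 + r) * Ff (4 * q + 1) (-2 * (1 + r)) + w) * hhS
  have hU : Ff (4 * q + 1) (-2 * (1 + r)) * (-(1 + r) * algebraMap (R p) S iw) = 1 := by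
    linear_combination (algebraMap (R p) S iw) * hw + hiwS
  have hV : Ff (4 * q + 1) (-2 * (1 + -r)) * ((r - 1) * algebraMap (R p) S iw) = 1 := by
    rw [← sub_eq_add_neg, hb]
    linear_combination (algebraMap (R p) S iw) * hw + hiwS -
      ((1 + r) * Ff (4 * q + 1) (-2 * (1 + r)) * algebraMap (R p) S iw) * hr
  have kk1 := key' p (4 * q + 1) hpm (by omega) (by omega) r _ hr hhS _ hU
  have kk2 := key' p (4 * q + 1) hpm (by omega) (by omega) (-r) _ (by rw [neg_sq, hr]) hhS _ hV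
  rw [← sub_eq_add_neg] at kk2
  have h2m := p_two p (4 * q + 1) hpm (by omega) S
  rw [Odd.neg_one_pow ⟨2 * q, by ring⟩] at h2m
  rw [map_add, ← hwdef, map_mul, map_mul, map_natCast, map_ofNat]
  refine alg3 (p : S) r (algebraMap (R p) S h) _ _ _ _ w _ hr hhS hb hw hiwS ?_ ?_
  · linear_combination kk1 + (6 * algebraMap (R p) S h * r * (3 - 2 * r)) * h2m +
      (12 * algebraMap (R p) S h * p) * hr + (p * (24 - 17 * r)) * hhS
  · linear_combination kk2 - (6 * algebraMap (R p) S h * r * (3 + 2 * r)) * h2m +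
      (12 * algebraMap (R p) S h * p) * hr + (p * (24 + 17 * r)) * hhS

end Pool.Agent.H578.E8
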