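import Pool.Agent.H578.E8.Fin3

set_option autoImplicit false

/-!
# The rational sum
-/

namespace Pool.Agent.H578.E8

open Finset Pool.Agent.Q267.CDE Pool.Agent.Q267.MW Pool.Agent.Q267.E8

theorem z_dF {S : Type} [CommRing S] (m : ℕ) (z : S) :
    z * dF m z = ∑ k ∈ range (m + 1), (k : S) * (((cf m k : ℤ) : S) * z ^ k) := by
  unfold dF
  rw [mul_sum]
  refine sum_congr rfl fun k _ => ?_
  rcases Nat.eq_zero_or_pos k with h0 | h0
  · rw [h0]; simp
  · have : z ^ k = z * z ^ (k - 1) := by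
      rw [← pow_succ']
      congr 1
      omega
    rw [this]
    ring

/-- the weighted sum -/
def S1 (p : ℕ) : ℚ := ∑ k ∈ range p, (k : ℚ) * (Qn k : ℚ) / (-8) ^ k * ((2 * k).choose k : ℚ) ^ 2

/-- the numerator -/
def num1 (p : ℕ) : ℤ :=
  ∑ k ∈ range p, (k : ℤ) * (Qn k * ((-1) ^ k * 8 ^ (p - k) * ((k.centralBinom : ℕ) : ℤ) ^ 2))

theorem S1_eq (p : ℕ) : S1 p = (num1 p : ℚ) / ((8 ^ p : ℕ) : ℚ) := by
  rw [eq_div_iff (by positivity)]
  unfold S1 num1
  rw [Finset.sum_mul]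
  push_cast
  refine Finset.sum_congr rfl fun k hk => ?_
  have hk' : k ≤ p := (mem_range.1 hk).le
  have h1 : (8 : ℚ) ^ p = 8 ^ k * 8 ^ (p - k) := by rw [← pow_add]; congr 1; omega
  have h2 : (-8 : ℚ) ^ k = (-1) ^ k * 8 ^ k := by rw [← mul_pow]; norm_num
  have h3 : ((-1 : ℚ) ^ k) * (-1) ^ k = 1 := by rw [← mul_pow]; norm_num
  rw [h1, h2, Nat.centralBinom]
  field_simp
  linear_combination (-((k : ℚ) * (Qn k : ℚ) * (((2 * k).choose k : ℕ) : ℚ) ^ 2)) * h3

theorem num1_eq (p m : ℕ) [hp : Fact p.Prime] (S : Type) [CommRing S] [Algebra (R p) S] (r : S)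
    (hpm : p = 2 * m + 1) (hr : r ^ 2 = 2) :
    ((num1 p : ℤ) : S) = (-2 * (1 + r) * dF m (-2 * (1 + r)) + -2 * (1 - r) * dF m (-2 * (1 - r))) * 8 ^ p := by
  unfold num1
  have h0 : range (m + 1) ⊆ range p := by
    intro k hk
    rw [mem_range] at hk ⊢
    omega
  rw [Int.cast_sum, ← Finset.sum_subset h0]
  · rw [z_dF, z_dF, ← Finset.sum_add_distrib, Finset.sum_mul]
    refine Finset.sum_congr rfl fun k hk => ?_
    have hk' : k ≤ m := Nat.lt_succ_iff.1 (mem_range.1 hk)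
    have h1 := congrArg (algebraMap (R p) S) ((Pool.Agent.Q182.E8.cb p m k hpm).1 hk')
    simp only [map_mul, map_pow, map_natCast, map_neg, map_one, map_ofNat] at h1
    have h2 : (8 : S) ^ p = 8 ^ k * 8 ^ (p - k) := by rw [← pow_add]; congr 1; omega
    have h3 : ((-1 : S) ^ k) * (-1) ^ k = 1 := by rw [← mul_pow]; norm_num
    have h4 : (16 : S) ^ k = 8 ^ k * 2 ^ k := by rw [← mul_pow]; norm_num
    have h5 : (-2 * (1 + r)) ^ k = (-1) ^ k * 2 ^ k * (1 + r) ^ k := by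
      rw [← mul_pow, ← mul_pow]; norm_num
    have h6 : (-2 * (1 - r)) ^ k = (-1) ^ k * 2 ^ k * (1 - r) ^ k := by
      rw [← mul_pow, ← mul_pow]; norm_num
    unfold cf
    push_cast
    rw [Pool.Agent.Q299.E8.qn_eq S r hr k, h1, h4, h5, h6, h2]
    ring
  · intro k hk hk'
    rw [mem_range] at hk hk'
    have h1 := congrArg (algebraMap (R p) S) ((Pool.Agent.Q182.E8.cb p m k hpm).2 (by omega) hk)
    simp only [map_pow, map_natCast, map_zero] at h1
    push_cast
    rw [h1]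
    ring

/-- the class of the weighted sum -/
theorem rs1 (p m : ℕ) [hp : Fact p.Prime] (S : Type) [CommRing S] [Algebra (R p) S] (r : S) (c : R p)
    (hpm : p = 2 * m + 1) (hr : r ^ 2 = 2) (hinj : Function.Injective (algebraMap (R p) S))
    (hc : -2 * (1 + r) * dF m (-2 * (1 + r)) + -2 * (1 - r) * dF m (-2 * (1 - r)) = algebraMap (R p) S c) :
    IsRed p (S1 p) c := by
  refine ⟨num1 p, 8 ^ p, ?_, S1_eq p, ?_⟩
  · intro h
    have h1 : p ∣ 2 ^ 3 := by
      have := hp.out.dvd_of_dvd_pow h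
      norm_num at this ⊢
      exact this
    have h2 := hp.out.dvd_of_dvd_pow h1
    have h3 := Nat.le_of_dvd (by norm_num) h2
    have h4 := hp.out.two_le
    omega
  · apply hinj
    have h8 : algebraMap (R p) S ((8 ^ p : ℕ) : R p) = 8 ^ p := by
      rw [map_natCast]
      push_cast
      rfl
    rw [map_intCast, num1_eq p m S r hpm hr, map_mul, hc, h8]

/-- the value for `p = 1` modulo `8` -/
theorem s1_case1 (p : ℕ) [Fact p.Prime] (h8 : p % 8 = 1) : Cong p 2 (S1 p) 0 := by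
  have h1 : 1 < p := (Fact.out : p.Prime).one_lt
  obtain ⟨q, hq⟩ : ∃ q, p = 8 * q + 1 := ⟨p / 8, by omega⟩
  obtain ⟨r, hr, hd⟩ := d_case1 p q (by omega) hq
  have hc : IsRed p (S1 p) 0 := rs1 p (4 * q) (R p) r 0 (by omega) hr (fun a b hab => hab) (by
    rw [hd]; rfl)
  refine (Pool.Agent.Q10.E8.rb p (S1 p) 0 0 hc).1 ⟨0, 1, ?_, by simp, by simp⟩
  intro h
  have := Nat.le_of_dvd one_pos h
  omega

/-- the class of `2 (x + p/x)` -/
theorem isRed_x (p : ℕ) [hp : Fact p.Prime] (x : ℤ) (hx : ¬ (p : ℤ) ∣ 2 * x) (w iw : R p)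
    (hiw : w * iw = 1) (h : (2 * (x : R p) - w) * (2 * x) = p) :
    IsRed p (2 * ((x : ℚ) + p / x)) (w + 5 * p * iw) := by
  have hx0 : x ≠ 0 := by
    rintro rfl
    exact hx (by simp)
  have hxq : (x : ℚ) ≠ 0 := by exact_mod_cast hx0
  have hab : ((x.natAbs ^ 2 : ℕ) : ℤ) = x ^ 2 := by
    rw [Nat.cast_pow]
    exact Int.natAbs_sq x
  refine ⟨(2 * x ^ 2 + 2 * p) * x, x.natAbs ^ 2, ?_, ?_, ?_⟩
  · intro hd
    have h1 := hp.out.dvd_of_dvd_pow hd
    apply hx
    exact (Int.natCast_dvd.mpr h1).mul_left 2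
  · have e : ((x.natAbs ^ 2 : ℕ) : ℚ) = (x : ℚ) ^ 2 := by
      have := congrArg (Int.cast : ℤ → ℚ) hab
      rw [Int.cast_natCast, Int.cast_pow] at this
      exact this
    rw [e]
    push_cast
    field_simp
    try ring
  · have e : ((x.natAbs ^ 2 : ℕ) : R p) = (x : R p) ^ 2 := by
      have := congrArg (Int.cast : ℤ → R p) hab
      rw [Int.cast_natCast, Int.cast_pow] at this
      exact this
    rw [e]
    have hP := p_sq p
    -- `p w = 2 p x`
    have hxu : IsUnit ((2 * x : ℤ) : R p) := by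
      apply isUnit_of_red
      rw [map_intCast]
      intro h0
      exact hx ((ZMod.intCast_zmod_eq_zero_iff_dvd _ _).mp h0)
    have h1 : (p : R p) * (2 * x - w) = 0 := by
      apply hxu.mul_left_cancel
      push_cast
      linear_combination (p : R p) * h + hP
    have h2 : (p : R p) * iw * (2 * x) = p := by
      linear_combination iw * h1 + (p : R p) * hiw
    have h4u : IsUnit (2 : R p) := by
      have h5 := hxu
      push_cast at h5
      exact isUnit_of_mul_isUnit_left h5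
    apply h4u.mul_left_cancel
    push_cast
    linear_combination (x : R p) * h - 5 * x * h2

/-- the value for `p = 3` modulo `8`, `x = 1` modulo `4` -/
theorem s1_case3 (p : ℕ) [Fact p.Prime] (h8 : p % 8 = 3) (h3 : 3 < p) (x y : ℤ)
    (hxy : (p : ℤ) = x ^ 2 + 2 * y ^ 2) (hx : (4 : ℤ) ∣ x - 1) :
    Cong p 2 (S1 p) (2 * ((x : ℚ) + p / x)) := by
  obtain ⟨q, hq⟩ : ∃ q, p = 8 * q + 3 := ⟨p / 8, by omega⟩
  obtain ⟨S, i1, i2, r, iw, hr, hinj, hiw, hd⟩ := d_case3 p q (by omega) hq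
  have hc := rs1 p (4 * q + 1) S r _ (by omega) hr hinj hd
  refine (Pool.Agent.Q10.E8.rb p (S1 p) _ _ hc).1 ?_
  exact isRed_x p x (ndvd p h3 x y hxy) _ iw hiw (case3 wa wc p q (by omega) hq x y hxy hx)

end Pool.Agent.H578.E8
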