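import Pool.Graph.R_pool_sql_team_seeded_3997aac3.Q154.E8.RB1

set_option autoImplicit false

/-!
# A Wronskian modulo `p²`

For `F = P_m(1-2z)` and `K = ∑ C(m,k)² z^k`, `p = 2m+1`:
`2 z (1-z) (F K' - K F') + p z F K = p z^p` modulo `p²`.
-/

namespace Pool.Agent.H578.E8

open Finset Polynomial Pool.Agent.Q267.CDE Pool.Agent.Q267.E8

section ode

variable {A : Type*} [CommRing A]

theorem coeff_Xd (Q : A[X]) (n : ℕ) : (X * derivative Q).coeff n = n * Q.coeff n := by
  cases n with
  | zero => simp
  | succ n =>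
    rw [coeff_X_mul, coeff_derivative]
    push_cast
    ring

/-- the hypergeometric equation from the recurrence of the coefficients -/
theorem ode (Q : A[X]) (a b : A)
    (h : ∀ n : ℕ, ((n : A) + 1) ^ 2 * Q.coeff (n + 1) = ((n : A) ^ 2 + a * n + b) * Q.coeff n) :
    X * derivative (X * derivative Q) = X * (X * derivative (X * derivative Q) + C a * (X * derivative Q) + C b * Q) := by
  ext n
  rw [coeff_Xd, coeff_Xd]
  cases n with
  | zero => simp
  | succ n =>
    rw [coeff_X_mul, coeff_add, coeff_add, coeff_C_mul, coeff_C_mul, coeff_Xd, coeff_Xd]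
    push_cast
    linear_combination h n

end ode

section poly

/-- coefficients of `F` -/
def cf (m k : ℕ) : ℤ := (-1) ^ k * (m.choose k : ℤ) * ((m + k).choose k : ℤ)

/-- coefficients of `K` -/
def cg (m k : ℕ) : ℤ := (m.choose k : ℤ) ^ 2

theorem choose_step (m n : ℕ) : ((n : ℤ) + 1) * (m.choose (n + 1) : ℤ) = ((m : ℤ) - n) * (m.choose n : ℤ) := by
  have h := Nat.choose_succ_right_eq m n
  rcases Nat.lt_or_ge m n with h1 | h1
  · rw [Nat.choose_eq_zero_of_lt h1, Nat.choose_eq_zero_of_lt (by omega)]
    simp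
  · have h2 := congrArg (Nat.cast : ℕ → ℤ) h
    push_cast [Nat.cast_sub h1] at h2
    linear_combination h2

theorem cg_rec (m n : ℕ) : ((n : ℤ) + 1) ^ 2 * cg m (n + 1) = ((n : ℤ) ^ 2 + (-2 * m) * n + m ^ 2) * cg m n := by
  unfold cg
  have h := choose_step m n
  linear_combination (((n : ℤ) + 1) * (m.choose (n + 1) : ℤ) + ((m : ℤ) - n) * (m.choose n : ℤ)) * h

theorem cf_rec (m n : ℕ) : ((n : ℤ) + 1) ^ 2 * cf m (n + 1) = ((n : ℤ) ^ 2 + 1 * n + -(m * (m + 1))) * cf m n := by
  unfold cf
  have h := choose_step m n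
  have h2 : ((n : ℤ) + 1) * ((m + (n + 1)).choose (n + 1) : ℤ) = ((m : ℤ) + n + 1) * ((m + n).choose n : ℤ) := by
    have := Nat.add_one_mul_choose_eq (m + n) n
    have h3 := congrArg (Nat.cast : ℕ → ℤ) this
    push_cast at h3
    rw [← add_assoc]
    linear_combination -h3
  rw [pow_succ]
  linear_combination (-(-1 : ℤ) ^ n * (((n : ℤ) + 1) * ((m + (n + 1)).choose (n + 1) : ℤ))) * h +
    (-(-1 : ℤ) ^ n * (((m : ℤ) - n) * (m.choose n : ℤ))) * h2

variable (A : Type*) [CommRing A]

/-- the polynomial `F` -/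
noncomputable def FP (m : ℕ) : A[X] := ∑ k ∈ range (m + 1), C ((cf m k : ℤ) : A) * X ^ k

/-- the polynomial `K` -/
noncomputable def KP (m : ℕ) : A[X] := ∑ k ∈ range (m + 1), C ((cg m k : ℤ) : A) * X ^ k

theorem FP_coeff (m n : ℕ) : (FP A m).coeff n = ((cf m n : ℤ) : A) := by
  unfold FP
  rw [finsetSum_coeff]
  simp only [coeff_C_mul, coeff_X_pow, mul_ite, mul_one, mul_zero]
  rw [Finset.sum_ite_eq]
  split_ifs with h
  · rfl
  · rw [mem_range, not_lt] at h
    unfold cf
    rw [Nat.choose_eq_zero_of_lt (by omega)]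
    simp

theorem KP_coeff (m n : ℕ) : (KP A m).coeff n = ((cg m n : ℤ) : A) := by
  unfold KP
  rw [finsetSum_coeff]
  simp only [coeff_C_mul, coeff_X_pow, mul_ite, mul_one, mul_zero]
  rw [Finset.sum_ite_eq]
  split_ifs with h
  · rfl
  · rw [mem_range, not_lt] at h
    unfold cg
    rw [Nat.choose_eq_zero_of_lt (by omega)]
    simp

theorem FP_deg (m : ℕ) : (FP A m).natDegree ≤ m := by
  rw [natDegree_le_iff_coeff_eq_zero]
  intro n hn
  rw [FP_coeff]
  unfold cf
  rw [Nat.choose_eq_zero_of_lt (by omega)]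
  simp

theorem KP_deg (m : ℕ) : (KP A m).natDegree ≤ m := by
  rw [natDegree_le_iff_coeff_eq_zero]
  intro n hn
  rw [KP_coeff]
  unfold cg
  rw [Nat.choose_eq_zero_of_lt (by omega)]
  simp

theorem FP_ode (m : ℕ) : X * derivative (X * derivative (FP A m)) =
    X * (X * derivative (X * derivative (FP A m)) + C 1 * (X * derivative (FP A m)) +
      C (-((m : A) * (m + 1))) * FP A m) := by
  apply ode
  intro n
  rw [FP_coeff, FP_coeff]
  have := congrArg (Int.cast : ℤ → A) (cf_rec m n)
  push_cast at this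
  linear_combination this

theorem KP_ode (m : ℕ) : X * derivative (X * derivative (KP A m)) =
    X * (X * derivative (X * derivative (KP A m)) + C (-2 * (m : A)) * (X * derivative (KP A m)) +
      C ((m : A) ^ 2) * KP A m) := by
  apply ode
  intro n
  rw [KP_coeff, KP_coeff]
  have := congrArg (Int.cast : ℤ → A) (cg_rec m n)
  push_cast at this
  linear_combination this

end poly

section wronski

variable (p m : ℕ) [hp : Fact p.Prime]

/-- `p F = p K` coefficientwise -/
theorem p_cf (hpm : p = 2 * m + 1) (k : ℕ) : (p : R p) * ((cf m k : ℤ) : R p) = p * ((cg m k : ℤ) : R p) := by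
  rcases Nat.lt_or_ge m k with h1 | h1
  · unfold cf cg
    rw [Nat.choose_eq_zero_of_lt h1]
    simp
  · apply p_mul_eq
    unfold cf cg
    push_cast
    simp only [map_mul, map_pow, map_neg, map_one, map_natCast]
    have h := Pool.Agent.Q154.E8.RB.choose_refl p m hpm k h1
    linear_combination ((m.choose k : ℕ) : ZMod p) * h

theorem p_FP (hpm : p = 2 * m + 1) : C (p : R p) * FP (R p) m = C (p : R p) * KP (R p) m := by
  ext n
  rw [coeff_C_mul, coeff_C_mul, FP_coeff, KP_coeff]
  exact p_cf p m hpm n

/-- the difference that vanishes -/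
noncomputable def GP : (R p)[X] :=
  2 * (1 - X) * (FP (R p) m * (X * derivative (KP (R p) m)) - KP (R p) m * (X * derivative (FP (R p) m))) +
    C (p : R p) * X * FP (R p) m * KP (R p) m - C (p : R p) * X ^ p

theorem X_der_pow (n : ℕ) : (X : (R p)[X]) * derivative (X ^ n) = C (n : R p) * X ^ n := by
  ext k
  rw [coeff_Xd, coeff_C_mul, coeff_X_pow]
  split_ifs with h
  · rw [h]
  · simp

theorem der_aux (F K u v P W : (R p)[X]) (hP : derivative P = 0) (hu : X * derivative F = u)
    (hv : X * derivative K = v) : X * derivative (2 * (1 - X) * (F * v - K * u) + P * X * F * K - P * W) =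
      -2 * X * (F * v - K * u) + 2 * (1 - X) * (F * (X * derivative v) - K * (X * derivative u)) +
      P * X * (F * K + u * K + F * v) - P * (X * derivative W) := by
  have h2 : derivative (2 : (R p)[X]) = 0 := by
    have : (2 : (R p)[X]) = C 2 := (map_ofNat C 2).symm
    rw [this, derivative_C]
  rw [derivative_sub, derivative_add, derivative_mul, derivative_mul, derivative_mul, derivative_mul,
    derivative_mul, derivative_sub, derivative_sub, derivative_mul, derivative_mul, derivative_mul,
    derivative_X, derivative_one, h2, hP]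
  linear_combination (2 * (1 - X) * v + P * X * K) * hu + (-2 * (1 - X) * u + P * X * F) * hv

theorem GP_der (hpm : p = 2 * m + 1) : X * derivative (GP p m) = 0 := by
  have hF := FP_ode (R p) m
  have hK := KP_ode (R p) m
  have hFK := p_FP p m hpm
  have hPP : (C (p : R p) : (R p)[X]) * C (p : R p) = 0 := by
    rw [← C_mul, ← pow_two, p_sq, C_0]
  have hm : (C (p : R p) : (R p)[X]) = 2 * C (m : R p) + 1 := by
    have : (p : R p) = 2 * m + 1 := by
      have := congrArg (Nat.cast : ℕ → R p) hpm
      push_cast at this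
      exact this
    rw [this, C_add, C_mul, C_1]
    rfl
  have hdFK := congrArg (fun y => X * derivative y) hFK
  simp only [derivative_C_mul] at hdFK
  unfold GP
  rw [der_aux p _ _ _ _ _ _ derivative_C rfl rfl, X_der_pow]
  rw [C_1] at hF
  have e1 : (C (-((m : R p) * (m + 1))) : (R p)[X]) = -(C (m : R p) * (C (m : R p) + 1)) := by
    rw [C_neg, C_mul, C_add, C_1]
  have e2 : (C (-2 * (m : R p)) : (R p)[X]) = -2 * C (m : R p) := by
    rw [C_mul, C_neg]
    rfl
  rw [e1] at hF
  rw [e2, C_pow] at hK
  have hdFK' : C (p : R p) * (X * derivative (FP (R p) m)) = C (p : R p) * (X * derivative (KP (R p) m)) := by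
    linear_combination hdFK
  clear hdFK e1 e2
  generalize X * derivative (X * derivative (FP (R p) m)) = uu at *
  generalize X * derivative (X * derivative (KP (R p) m)) = vv at *
  generalize X * derivative (FP (R p) m) = u at *
  generalize X * derivative (KP (R p) m) = v at *
  generalize FP (R p) m = F at *
  generalize KP (R p) m = K at *
  generalize (C (m : R p) : (R p)[X]) = M at *
  generalize (C (p : R p) : (R p)[X]) = P at *
  subst hm
  linear_combination (2 * F) * hK - (2 * K) * hF - X * v * hFK + X * K * hdFK' + (X * F * K - X ^ p) * hPP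

theorem GP_coeff (hpm : p = 2 * m + 1) (n : ℕ) (hn : n ≠ 0) (hnp : n < p) : (GP p m).coeff n = 0 := by
  have h := congrArg (fun y : (R p)[X] => y.coeff n) (GP_der p m hpm)
  simp only [coeff_Xd, coeff_zero] at h
  exact (isUnit_nat p n (Nat.pos_of_ne_zero hn) hnp).mul_left_cancel (by rw [h, mul_zero])

theorem Xd_deg (Q : (R p)[X]) (n : ℕ) (h : Q.natDegree ≤ n) : (X * derivative Q).natDegree ≤ n := by
  rw [natDegree_le_iff_coeff_eq_zero]
  intro k hk
  rw [coeff_Xd, coeff_eq_zero_of_natDegree_lt (by omega), mul_zero]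

theorem GP_deg (hpm : p = 2 * m + 1) : (GP p m).natDegree ≤ p := by
  have hF := FP_deg (R p) m
  have hK := KP_deg (R p) m
  have hu := Xd_deg p _ m hF
  have hv := Xd_deg p _ m hK
  have h1 : ((1 : (R p)[X]) - X).natDegree ≤ 1 := by
    refine (natDegree_sub_le _ _).trans ?_
    simp [natDegree_X_le]
  have h2 : ((2 : (R p)[X]) * (1 - X)).natDegree ≤ 1 := by
    have : (2 : (R p)[X]) = C 2 := (map_ofNat C 2).symm
    rw [this]
    exact (natDegree_C_mul_le _ _).trans h1
  unfold GP
  refine (natDegree_sub_le _ _).trans (max_le ((natDegree_add_le _ _).trans (max_le ?_ ?_)) ?_)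
  · refine natDegree_mul_le.trans ?_
    have h3 : (FP (R p) m * (X * derivative (KP (R p) m)) - KP (R p) m * (X * derivative (FP (R p) m))).natDegree ≤
        m + m := by
      refine (natDegree_sub_le _ _).trans (max_le ?_ ?_)
      · exact natDegree_mul_le.trans (add_le_add hF hv)
      · exact natDegree_mul_le.trans (add_le_add hK hu)
    omega
  · refine natDegree_mul_le.trans ?_
    have h3 : (C (p : R p) * X * FP (R p) m).natDegree ≤ 1 + m := by
      refine natDegree_mul_le.trans (add_le_add ?_ hF)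
      exact (natDegree_C_mul_le _ _).trans natDegree_X_le
    omega
  · exact (natDegree_C_mul_le _ _).trans (natDegree_X_pow_le _)

theorem GP_zero (hpm : p = 2 * m + 1) (hm : 0 < m) : GP p m = 0 := by
  have h0 : (GP p m).coeff 0 = 0 := by
    unfold GP
    rw [coeff_zero_eq_eval_zero]
    simp only [eval_sub, eval_add, eval_mul, eval_X, eval_pow, zero_mul, mul_zero]
    rw [zero_pow hp.out.ne_zero]
    ring
  have hG : GP p m = C ((GP p m).coeff p) * X ^ p := by
    ext n
    rw [coeff_C_mul, coeff_X_pow]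
    split_ifs with h
    · rw [h, mul_one]
    · rw [mul_zero]
      rcases Nat.lt_or_ge n p with h1 | h1
      · rcases Nat.eq_zero_or_pos n with h2 | h2
        · rw [h2, h0]
        · exact GP_coeff p m hpm n h2.ne' h1
      · exact coeff_eq_zero_of_natDegree_lt (lt_of_le_of_lt (GP_deg p m hpm) (by omega))
  have h1 : (GP p m).coeff p = 0 := by
    have e := congrArg (eval 1) hG
    rw [eval_mul, eval_C, eval_pow, eval_X, one_pow, mul_one] at e
    rw [← e]
    have hFK := congrArg (eval 1) (p_FP p m hpm)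
    rw [eval_mul, eval_C, eval_mul, eval_C] at hFK
    have hK : eval 1 (KP (R p) m) = (((2 * m).choose m : ℕ) : R p) := by
      unfold KP
      rw [eval_finset_sum]
      simp only [eval_mul, eval_C, eval_pow, eval_X, one_pow, mul_one]
      rw [← Nat.sum_range_choose_sq m]
      unfold cg
      push_cast
      rfl
    have hsq : (p : R p) * ((((2 * m).choose m : ℕ) : R p) * (((2 * m).choose m : ℕ) : R p)) = p * 1 := by
      apply p_mul_eq
      have h := Pool.Agent.Q154.E8.RB.choose_refl p m hpm m le_rfl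
      rw [Nat.choose_self, ← two_mul, Nat.cast_one] at h
      rw [map_mul, map_natCast, map_one]
      have h2 : ((-1 : ZMod p) ^ m) ^ 2 = 1 := by rw [← pow_mul, mul_comm, pow_mul, neg_one_sq, one_pow]
      linear_combination ((-1 : ZMod p) ^ m * (((2 * m).choose m : ℕ) : ZMod p) + 1) * h -
        (((2 * m).choose m : ℕ) : ZMod p) ^ 2 * h2
    unfold GP
    simp only [eval_sub, eval_add, eval_mul, eval_X, eval_pow, eval_C, eval_one, one_pow, sub_self, mul_zero,
      zero_mul, zero_add, mul_one]
    rw [hFK, mul_assoc, hK, hsq]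
    ring
  rw [hG, h1, C_0, zero_mul]

end wronski

section eval

variable {S : Type} [CommRing S]

/-- derivative of `F` -/
def dF (m : ℕ) (z : S) : S := ∑ k ∈ range (m + 1), ((cf m k : ℤ) : S) * (k * z ^ (k - 1))

/-- derivative of `K` -/
def dK (m : ℕ) (z : S) : S := ∑ k ∈ range (m + 1), ((cg m k : ℤ) : S) * (k * z ^ (k - 1))

theorem Ff_eq (m : ℕ) (z : S) : Ff m z = ∑ k ∈ range (m + 1), ((cf m k : ℤ) : S) * z ^ k := by
  unfold Ff cf
  push_cast
  rfl

theorem Kf_eq (m : ℕ) (z : S) : Kf m z = ∑ k ∈ range (m + 1), ((cg m k : ℤ) : S) * z ^ k := by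
  unfold Kf cg
  push_cast
  rfl

variable (p m : ℕ) [hp : Fact p.Prime] [Algebra (R p) S]

theorem aeval_FP (z : S) : aeval z (FP (R p) m) = Ff m z := by
  rw [Ff_eq]
  unfold FP
  rw [map_sum]
  refine sum_congr rfl fun k _ => ?_
  rw [map_mul, aeval_C, map_intCast, map_pow, aeval_X]

theorem aeval_KP (z : S) : aeval z (KP (R p) m) = Kf m z := by
  rw [Kf_eq]
  unfold KP
  rw [map_sum]
  refine sum_congr rfl fun k _ => ?_
  rw [map_mul, aeval_C, map_intCast, map_pow, aeval_X]

theorem aeval_dFP (z : S) : aeval z (derivative (FP (R p) m)) = dF m z := by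
  unfold FP dF
  rw [map_sum, map_sum]
  refine sum_congr rfl fun k _ => ?_
  rw [derivative_C_mul, derivative_X_pow, map_mul, map_mul, aeval_C, aeval_C, map_intCast, map_natCast,
    map_pow, aeval_X]

theorem aeval_dKP (z : S) : aeval z (derivative (KP (R p) m)) = dK m z := by
  unfold KP dK
  rw [map_sum, map_sum]
  refine sum_congr rfl fun k _ => ?_
  rw [derivative_C_mul, derivative_X_pow, map_mul, map_mul, aeval_C, aeval_C, map_intCast, map_natCast,
    map_pow, aeval_X]

/-- **The Wronskian modulo `p²`.** -/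
theorem wronskian (hpm : p = 2 * m + 1) (hm : 0 < m) (z : S) :
    2 * z * (1 - z) * (Ff m z * dK m z - Kf m z * dF m z) + (p : S) * z * Ff m z * Kf m z = (p : S) * z ^ p := by
  have h := congrArg (aeval z) (GP_zero p m hpm hm)
  unfold GP at h
  simp only [map_sub, map_add, map_mul, map_pow, aeval_X, aeval_C, map_natCast, map_one, map_ofNat, map_zero,
    aeval_FP, aeval_KP, aeval_dFP, aeval_dKP] at h
  linear_combination h

/-- `F = K + p D` -/
theorem F_K (hpm : p = 2 * m + 1) (z : S) : ∃ d : S, Ff m z = Kf m z + (p : S) * d := by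
  have h1 : ∀ k : ℕ, ∃ y : R p, ((cf m k : ℤ) : R p) = ((cg m k : ℤ) : R p) + p * y := by
    intro k
    rcases Nat.lt_or_ge m k with h1 | h1
    · refine ⟨0, ?_⟩
      unfold cf cg
      rw [Nat.choose_eq_zero_of_lt h1]
      simp
    · apply red_eq_of
      unfold cf cg
      push_cast
      simp only [map_mul, map_pow, map_neg, map_one, map_natCast]
      have h := Pool.Agent.Q154.E8.RB.choose_refl p m hpm k h1
      linear_combination ((m.choose k : ℕ) : ZMod p) * h
  choose y hy using h1
  refine ⟨∑ k ∈ range (m + 1), algebraMap (R p) S (y k) * z ^ k, ?_⟩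
  rw [Ff_eq, Kf_eq, mul_sum, ← sum_add_distrib]
  refine sum_congr rfl fun k _ => ?_
  have := congrArg (algebraMap (R p) S) (hy k)
  rw [map_add, map_mul, map_intCast, map_intCast, map_natCast] at this
  linear_combination z ^ k * this

end eval

end Pool.Agent.H578.E8
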